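import Mathlib

set_option autoImplicit false

namespace Pool.Agent.Results.MP_72856e_co.OddCycleCliqueGraph

/-- A clique of `G`: the vertex set of a maximal complete subgraph. -/
def IsMaxClique {V : Type*} (G : SimpleGraph V) (S : Finset V) : Prop :=
  Maximal (fun T : Finset V => G.IsClique (T : Set V)) S

/-- The clique graph `K(G)`: its vertices are the cliques (maximal complete subgraphs) of `G`, two
different cliques being adjacent when they have a vertex in common. -/
def cliqueGraph {V : Type*} (G : SimpleGraph V) : SimpleGraph {S : Finset V // IsMaxClique G S} where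
  Adj S T := S ≠ T ∧ ∃ v, v ∈ S.1 ∧ v ∈ T.1
  symm := ⟨fun _ _ h => ⟨h.1.symm, h.2.imp fun _ hv => ⟨hv.2, hv.1⟩⟩⟩
  loopless := ⟨fun _ h => h.1 rfl⟩

/-- `c(G)`: the number of vertices of a smallest clique (maximal complete subgraph). -/
noncomputable def minClique {V : Type*} (G : SimpleGraph V) : ℕ :=
  sInf {k | ∃ S : Finset V, IsMaxClique G S ∧ S.card = k}

/-- `D` is a dominating set of `G`. -/
def IsDominating {V : Type*} (G : SimpleGraph V) (D : Finset V) : Prop :=
  ∀ v, v ∉ D → ∃ u ∈ D, G.Adj v u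

/-- The domatic number `d(G)`: the maximum number of parts of a partition of the vertex set into
dominating sets. -/
noncomputable def domatic {V : Type*} [Fintype V] [DecidableEq V] (G : SimpleGraph V) : ℕ :=
  sSup {k | ∃ P : Finpartition (Finset.univ : Finset V),
    (∀ X ∈ P.parts, IsDominating G X) ∧ P.parts.card = k}

/-- The vertices of the example. -/
abbrev V20 := Fin 5 × Fin 4

/-- The vertex `(i, 3)` lies in the clique number `i` only; the vertices `(i, 0)`, `(i, 1)`,
`(i, 2)` lie in the cliques number `i` and `i + 1` (modulo `5`). -/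
def mem (c : Fin 5 × Bool) (q : Fin 5) : Prop := q = c.1 ∨ (c.2 = false ∧ q = c.1 + 1)

instance : ∀ c q, Decidable (mem c q) := fun c q => by unfold mem; infer_instance

def cls (v : V20) : Fin 5 × Bool := (v.1, decide (v.2 = 3))

/-- The clique number `q`. -/
def Q (q : Fin 5) : Finset V20 := Finset.univ.filter fun v => mem (cls v) q

/-- The example: two vertices are adjacent iff they lie in a common clique `Q q`. -/
def G20 : SimpleGraph V20 where
  Adj u v := u ≠ v ∧ ∃ q, mem (cls u) q ∧ mem (cls v) q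
  symm := ⟨fun _ _ h => ⟨h.1.symm, h.2.imp fun _ hv => ⟨hv.2, hv.1⟩⟩⟩
  loopless := ⟨fun _ h => h.1 rfl⟩

theorem mem_Q (v : V20) (q : Fin 5) : v ∈ Q q ↔ mem (cls v) q := by simp [Q]

theorem helly3_aux : ∀ a b : Fin 5 × Bool, (∃ q, mem a q ∧ mem b q) →
    ∀ c : Fin 5 × Bool, (∃ q, mem a q ∧ mem c q) ∧ (∃ q, mem b q ∧ mem c q) →
      ∃ q, mem a q ∧ mem b q ∧ mem c q := by decide

theorem helly3 (a b c : Fin 5 × Bool) (h1 : ∃ q, mem a q ∧ mem b q) (h2 : ∃ q, mem a q ∧ mem c q)
    (h3 : ∃ q, mem b q ∧ mem c q) : ∃ q, mem a q ∧ mem b q ∧ mem c q :=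
  helly3_aux a b h1 c ⟨h2, h3⟩

theorem two_cliques : ∀ c : Fin 5 × Bool, ∃ p q, ∀ r, mem c r → r = p ∨ r = q := by decide

theorem exists_mem : ∀ c : Fin 5 × Bool, ∃ q, mem c q := by decide

theorem Q_card : ∀ q, (Q q).card = 7 := by decide

theorem Q_inter : ∀ p q : Fin 5, p ≠ q →
    ((∃ v, v ∈ Q p ∧ v ∈ Q q) ↔ (SimpleGraph.cycleGraph 5).Adj p q) := by decide

theorem common (S : Finset V20) (hS : G20.IsClique (S : Set V20)) {u v : V20} (hu : u ∈ S)
    (hv : v ∈ S) : ∃ q, mem (cls u) q ∧ mem (cls v) q := by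
  by_cases h : u = v
  · subst h
    obtain ⟨q, hq⟩ := exists_mem (cls u)
    exact ⟨q, hq, hq⟩
  · exact (hS hu hv h).2

/-- Every complete subgraph lies in one of the five cliques. -/
theorem clique_sub (S : Finset V20) (hS : G20.IsClique (S : Set V20)) : ∃ q, S ⊆ Q q := by
  by_contra hcon
  push Not at hcon
  obtain ⟨v, hv, _⟩ := Finset.not_subset.mp (hcon 0)
  obtain ⟨p, q, hpq⟩ := two_cliques (cls v)
  obtain ⟨a, ha, hap⟩ := Finset.not_subset.mp (hcon p)
  obtain ⟨b, hb, hbq⟩ := Finset.not_subset.mp (hcon q)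
  rw [mem_Q] at hap hbq
  obtain ⟨r, h1, h2, h3⟩ := helly3 _ _ _ (common S hS hv ha) (common S hS hv hb)
    (common S hS ha hb)
  rcases hpq r h1 with rfl | rfl
  · exact hap h2
  · exact hbq h3

theorem Q_clique (q : Fin 5) : G20.IsClique (Q q : Set V20) := by
  intro u hu v hv huv
  exact ⟨huv, q, (mem_Q u q).mp hu, (mem_Q v q).mp hv⟩

theorem Q_inj : ∀ p q, Q p ⊆ Q q → p = q := by decide

theorem Q_max (q : Fin 5) : IsMaxClique G20 (Q q) := by
  refine ⟨Q_clique q, fun T hT hle => ?_⟩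
  obtain ⟨p, hp⟩ := clique_sub T hT
  have : q = p := Q_inj q p (le_trans hle hp)
  subst this
  exact hp

theorem max_eq (S : Finset V20) (hS : IsMaxClique G20 S) : ∃ q, Q q = S := by
  obtain ⟨q, hq⟩ := clique_sub S hS.1
  exact ⟨q, Finset.Subset.antisymm (hS.2 (Q_clique q) hq) hq⟩

/-- The clique graph of the example is the 5-cycle. -/
noncomputable def iso : SimpleGraph.cycleGraph 5 ≃g cliqueGraph G20 where
  toEquiv := Equiv.ofBijective (fun q => ⟨Q q, Q_max q⟩) ⟨fun p q h =>
    Q_inj p q (by rw [Subtype.mk.injEq] at h; rw [h]), fun S => by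
      obtain ⟨q, hq⟩ := max_eq S.1 S.2
      exact ⟨q, Subtype.ext hq⟩⟩
  map_rel_iff' := by
    intro p q
    change ((⟨Q p, Q_max p⟩ : {S : Finset V20 // IsMaxClique G20 S}) ≠ ⟨Q q, Q_max q⟩ ∧
      ∃ v, v ∈ Q p ∧ v ∈ Q q) ↔ _
    constructor
    · rintro ⟨hne, h⟩
      have hpq : p ≠ q := fun h => hne (by subst h; rfl)
      exact (Q_inter p q hpq).mp h
    · intro h
      have hpq : p ≠ q := h.ne
      refine ⟨fun h' => hpq (Q_inj p q ?_), (Q_inter p q hpq).mpr h⟩
      rw [Subtype.mk.injEq] at h'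
      rw [h']

theorem minClique_eq : minClique G20 = 7 := by
  have : {k | ∃ S : Finset V20, IsMaxClique G20 S ∧ S.card = k} = {7} := by
    ext k
    constructor
    · rintro ⟨S, hS, rfl⟩
      obtain ⟨q, rfl⟩ := max_eq S hS
      exact Q_card q
    · rintro rfl
      exact ⟨Q 0, Q_max 0, Q_card 0⟩
  rw [minClique, this]
  simp

/-- The number of cliques containing a vertex. -/
def w (v : V20) : ℕ := if v.2 = 3 then 1 else 2

theorem w_eq : ∀ v : V20, w v = (Finset.univ.filter fun q => mem (cls v) q).card := by decide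

theorem sum_w : ∑ v : V20, w v = 35 := by decide

theorem card_A : (Finset.univ.filter fun v : V20 => v.2 ≠ 3).card = 15 := by decide

theorem only_Q : ∀ q : Fin 5, ∀ v : V20, ∀ r : Fin 5, mem (cls ((q, 3) : V20)) r →
    mem (cls v) r → mem (cls v) q := by decide

theorem five_le (X : Finset V20) (hX : IsDominating G20 X) : 5 ≤ ∑ v ∈ X, w v := by
  have hhit : ∀ q : Fin 5, ∃ v ∈ X, mem (cls v) q := by
    intro q
    by_cases h : ((q, 3) : V20) ∈ X
    · exact ⟨_, h, Or.inl rfl⟩
    · obtain ⟨u, hu, hadj⟩ := hX _ h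
      obtain ⟨_, r, hr1, hr2⟩ := hadj
      exact ⟨u, hu, only_Q q u r hr1 hr2⟩
  calc 5 = ∑ _q : Fin 5, 1 := by simp
    _ ≤ ∑ q : Fin 5, (X.filter fun v => mem (cls v) q).card := by
        apply Finset.sum_le_sum
        intro q _
        obtain ⟨v, hv, hm⟩ := hhit q
        exact Finset.card_pos.mpr ⟨v, by simp [hv, hm]⟩
    _ = ∑ v ∈ X, w v := by
        simp_rw [w_eq, Finset.card_filter]
        rw [Finset.sum_comm]

theorem sum_parts (P : Finpartition (Finset.univ : Finset V20)) (f : V20 → ℕ) :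
    ∑ X ∈ P.parts, ∑ v ∈ X, f v = ∑ v : V20, f v := by
  have h := Finset.sum_biUnion (f := f) P.disjoint
  rw [P.biUnion_parts] at h
  exact h.symm

theorem le_six (P : Finpartition (Finset.univ : Finset V20))
    (hP : ∀ X ∈ P.parts, IsDominating G20 X) : P.parts.card ≤ 6 := by
  by_contra hcon
  have h7 : 7 ≤ P.parts.card := by omega
  have hsum : ∑ X ∈ P.parts, ∑ v ∈ X, w v = 35 := by
    rw [← sum_w, sum_parts]
  have hle : ∑ X ∈ P.parts, 5 ≤ ∑ X ∈ P.parts, ∑ v ∈ X, w v :=
    Finset.sum_le_sum fun X hX => five_le X (hP X hX)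
  have h7' : P.parts.card = 7 := by
    rw [hsum, Finset.sum_const, smul_eq_mul] at hle
    omega
  have heq : ∀ X ∈ P.parts, ∑ v ∈ X, w v = 5 := by
    intro X hX
    by_contra hne
    have h6 : 6 ≤ ∑ v ∈ X, w v := by
      have := five_le X (hP X hX)
      omega
    have : ∑ X ∈ P.parts, 5 < ∑ X ∈ P.parts, ∑ v ∈ X, w v :=
      Finset.sum_lt_sum (fun X hX => five_le X (hP X hX)) ⟨X, hX, by omega⟩
    rw [hsum, Finset.sum_const, smul_eq_mul, h7'] at this
    omega
  have hA : ∀ X ∈ P.parts, (X.filter fun v => v.2 ≠ 3).card ≤ 2 := by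
    intro X hX
    have h1 : ∑ v ∈ X.filter (fun v => v.2 ≠ 3), 2 ≤ ∑ v ∈ X, w v := by
      calc ∑ v ∈ X.filter (fun v => v.2 ≠ 3), 2 = ∑ v ∈ X.filter (fun v => v.2 ≠ 3), w v := by
            apply Finset.sum_congr rfl
            intro v hv
            have : v.2 ≠ 3 := (Finset.mem_filter.mp hv).2
            simp [w, this]
        _ ≤ ∑ v ∈ X, w v := Finset.sum_le_sum_of_subset (Finset.filter_subset _ _)
    rw [heq X hX, Finset.sum_const, smul_eq_mul] at h1
    omega
  have h15 : ∑ X ∈ P.parts, (X.filter fun v => v.2 ≠ 3).card = 15 := by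
    rw [← card_A]
    simp_rw [Finset.card_filter]
    rw [sum_parts]
  have := Finset.sum_le_sum hA
  rw [h15, Finset.sum_const, smul_eq_mul, h7'] at this
  omega

theorem domatic_le : domatic G20 ≤ 6 := by
  apply csSup_le'
  rintro k ⟨P, hP, rfl⟩
  exact le_six P hP

/-- **There is a graph `G` (with `20` vertices) whose clique graph is the 5-cycle and with
`c(G) = 7` and `d(G) ≤ 6`.** -/
theorem result : ∃ (V : Type) (_ : Fintype V) (_ : DecidableEq V) (G : SimpleGraph V),
    Nonempty (SimpleGraph.cycleGraph 5 ≃g cliqueGraph G) ∧ minClique G = 7 ∧ domatic G ≤ 6 :=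
  ⟨V20, inferInstance, inferInstance, G20, ⟨iso⟩, minClique_eq, domatic_le⟩

end Pool.Agent.Results.MP_72856e_co.OddCycleCliqueGraph
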